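import Pool.Agent.Work.MP_667be6_lc.Defs

/-!
Product trees, and the Halpern-Lauchli property of given trees.
-/

universe u

namespace Pool.Agent.Work.MP_667be6_lc.Spl

open Cardinal

/-- The product tree: all sequences `t` of length below `κ` with `t i ∈ M i` for all `i` in the
domain of `t`. -/
def prodTree {κ : Cardinal.{u}} (M : κ.ord.ToType → Set κ.ord.ToType) : Set (Node κ) :=
  {t | ∀ i : Set.Iio t.len, t.val i ∈ M i.1}

/-- The instance of `HL(d, σ, κ)` for the trees `T 0, …, T (d-1)`: every colouring of their level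
product by ordinals below `σ` is constant on the levels in `A` of strong subtrees witnessed by one
cofinal set `A`. -/
def HLFor {κ : Cardinal.{u}} {d : ℕ} (T : Fin d → Set (Node κ)) (σ : Cardinal.{u}) : Prop :=
  ∀ c : levelProd T → σ.ord.ToType,
    ∃ A : Set κ.ord.ToType, IsCofinal A ∧
      ∃ T' : Fin d → Set (Node κ), (∀ i, IsStrongSubtree (T i) A (T' i)) ∧
        ∃ k, ∀ x : levelProd T, (∃ α ∈ A, ∀ i, x.1 i ∈ level (T' i) α) → c x = k

end Pool.Agent.Work.MP_667be6_lc.Spl
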