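import Pool.Agent.Work.MP_667be6_lc.Params

/-!
Choice of the branching numbers of the tree, with branching on all levels at regular cardinals.
-/

universe u

namespace Pool.Agent.Work.MP_667be6_lc.Spl

open Cardinal Ordinal Order Set

theorem exists_levels {κ : Cardinal.{u}} :
    ∃ E : Set κ.ord.ToType, IsCofinal E ∧ (κ.IsRegular → ∀ a, a ∈ E) ∧
      ∀ a, #(Iio a ∩ E : Set κ.ord.ToType) < κ.ord.cof := by
  by_cases hr : κ.IsRegular
  · refine ⟨univ, fun a => ⟨a, mem_univ _, le_rfl⟩, fun _ a => mem_univ a, fun a => ?_⟩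
    rw [inter_univ, hr.cof_ord]
    exact mk_Iio_lt_self a
  obtain ⟨E, hE, hEt⟩ := exists_ord_cof_eq (α := κ.ord.ToType)
  rw [cof_toType] at hEt
  have hEc : #E = κ.ord.cof := by rw [← card_type (· < ·), hEt, card_ord]
  refine ⟨E, hE, fun h => (hr h).elim, fun a => ?_⟩
  obtain ⟨e, he, hae⟩ := hE a
  have h1 := mk_Iio_lt (⟨e, he⟩ : E) (by rw [hEc, hEt])
  rw [hEc] at h1
  refine lt_of_le_of_lt (mk_le_of_injective (f := fun x : (Iio a ∩ E : Set κ.ord.ToType) =>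
    (⟨⟨x.1, x.2.2⟩, lt_of_lt_of_le x.2.1 hae⟩ : Iio (⟨e, he⟩ : E))) ?_) h1
  intro x y h
  exact Subtype.ext (congrArg (fun z => z.1.1) h)

theorem exists_params_split {κ : Cardinal.{u}} (hκ : κ.IsStrongLimit) (h0 : ℵ₀ < κ) :
    ∃ (E : Set κ.ord.ToType) (M : κ.ord.ToType → Set κ.ord.ToType)
      (ν : κ.ord.ToType → Cardinal.{u}), IsCofinal E ∧ (κ.IsRegular → ∀ a, a ∈ E) ∧
      Monotone ν ∧ (∀ a, ℵ₀ ≤ ν a) ∧ (∀ a, ν a < κ) ∧ (∀ a ∈ E, succ (succ (ν a)) ≤ #(M a)) ∧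
      (∀ a, a ∉ E → M a = {a}) ∧
      (∀ a, 2 ^ #(W M a) ≤ ν a) ∧ (∀ a, #(Iio a) ≤ ν a) ∧ (∀ a ∈ E, ∀ y ∈ M a, ν a ≤ #(Iio y)) ∧
      ∀ a ∈ E, ∀ b, a < b → ∀ y ∈ M a, #(Iio y) < ν b := by
  classical
  obtain ⟨E, hE, hEr, hsmall⟩ := exists_levels (κ := κ)
  let ν : κ.ord.ToType → Cardinal.{u} := nu E
  let s : κ.ord.ToType → Cardinal.{u} := fun a =>
    max (max #(Iio a) ℵ₀) (⨆ b : (Iio a ∩ E : Set κ.ord.ToType), succ (succ (ν b.1)))
  have hν : ∀ a, ν a = 2 ^ s a := fun a => by simp only [ν, s]; rw [nu]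
  have hsucc : ∀ c < κ, succ c < κ := fun c hc => hκ.isSuccLimit.succ_lt hc
  have hνκ : ∀ a, ν a < κ := by
    intro a
    induction a using WellFoundedLT.induction with
    | ind a ih =>
      rw [hν]
      exact hκ.isStrongPrelimit (max_lt (max_lt (mk_Iio_lt_self a) h0)
        (iSup_lt_of_lt_cof_ord (hsmall a) fun b => hsucc _ (hsucc _ (ih b.1 b.2.1))))
  have hs0 : ∀ a, ℵ₀ ≤ s a := fun a => (le_max_right _ _).trans (le_max_left _ _)
  have hIio : ∀ a, #(Iio a) ≤ s a := fun a => (le_max_left _ _).trans (le_max_left _ _)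
  have hsν : ∀ a, s a < ν a := fun a => by rw [hν]; exact cantor _
  have hinf : ∀ a, ℵ₀ ≤ ν a := fun a => (hs0 a).trans (hsν a).le
  have hs : ∀ a, ∀ b ∈ E, b < a → succ (succ (ν b)) ≤ s a := fun a b hb h =>
    (le_ciSup (f := fun b : (Iio a ∩ E : Set κ.ord.ToType) => succ (succ (ν b.1)))
      bddAbove_of_small ⟨b, h, hb⟩).trans (le_max_right _ _)
  have hmono : Monotone ν := fun a b hab => by
    rw [hν, hν]
    refine power_le_power_left two_ne_zero (max_le (max_le ?_ (hs0 b)) (ciSup_le' fun c => ?_))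
    · exact (mk_le_mk_of_subset (Iio_subset_Iio hab)).trans (hIio b)
    · exact hs b c.1 c.2.2 (lt_of_lt_of_le c.2.1 hab)
  let M : κ.ord.ToType → Set κ.ord.ToType := fun a =>
    if a ∈ E then {y | ν a ≤ #(Iio y) ∧ #(Iio y) < succ (succ (ν a))} else {a}
  have hME : ∀ a ∈ E, M a = {y | ν a ≤ #(Iio y) ∧ #(Iio y) < succ (succ (ν a))} :=
    fun a ha => if_pos ha
  have hME' : ∀ a, a ∉ E → M a = {a} := fun a ha => if_neg ha
  have hMle : ∀ a b, b < a → #(M b) ≤ s a := fun a b hb => by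
    by_cases h : b ∈ E
    · rw [hME b h]
      exact ((mk_le_mk_of_subset fun y hy => hy.2).trans
        (mk_setOf_Iio_lt (β := κ.ord.ToType) _)).trans (hs a b h hb)
    · rw [hME' b h, mk_singleton]
      exact one_le_aleph0.trans (hs0 a)
  have hMge : ∀ a ∈ E, succ (succ (ν a)) ≤ #(M a) := by
    intro a ha
    have hc : succ (succ (ν a)) < κ := hsucc _ (hsucc _ (hνκ a))
    let z : κ.ord.ToType := ToType.mk ⟨(succ (succ (ν a))).ord, Cardinal.ord_lt_ord.2 hc⟩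
    have hz : (z : Ordinal.{u}) = (succ (succ (ν a))).ord := coe_mk _
    have hzc : #(Iio z) = succ (succ (ν a)) := by rw [mk_Iio_eq_card, hz, card_ord]
    have hsub : Iio z ⊆ M a ∪ {y | #(Iio y) < ν a} := by
      intro y hy
      by_cases h : #(Iio y) < ν a
      · exact Or.inr h
      · rw [hME a ha]
        refine Or.inl ⟨not_lt.1 h, ?_⟩
        rw [mem_Iio, ← coe_lt_coe, hz, Cardinal.lt_ord] at hy
        exact hy
    by_contra! hlt
    have h1 : #(Iio z) < succ (succ (ν a)) :=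
      (mk_le_mk_of_subset hsub).trans_lt ((mk_union_le _ _).trans_lt
        (add_lt_of_lt ((hinf a).trans ((le_succ _).trans (le_succ _))) hlt
          ((mk_setOf_Iio_lt (β := κ.ord.ToType) _).trans_lt ((lt_succ _).trans (lt_succ _)))))
    exact h1.ne hzc
  have hW : ∀ a, #(W M a) ≤ s a := fun a => by
    have : W M a ⊆ ⋃ b ∈ Iio a, (fun y => (b, y)) '' M b := by
      rintro ⟨b, y⟩ ⟨h1, h2⟩
      exact mem_biUnion h1 ⟨y, h2, rfl⟩
    exact (mk_le_mk_of_subset this).trans (mk_biUnion_le_of_le (hs0 a) (hIio a)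
      fun b hb => mk_image_le.trans (hMle a b hb))
  refine ⟨E, M, ν, hE, hEr, hmono, hinf, hνκ, hMge, hME',
    fun a => by rw [hν]; exact power_le_power_left two_ne_zero (hW a),
    fun a => (hIio a).trans (hsν a).le, fun a ha y hy => ?_, fun a ha b hab y hy => ?_⟩
  · rw [hME a ha] at hy
    exact hy.1
  · rw [hME a ha] at hy
    exact (hy.2.trans_le (hs b a ha hab)).trans (hsν b)

end Pool.Agent.Work.MP_667be6_lc.Spl
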